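import Pool.Agent.Results.MP_f0f1b2_co.SqrtPly

/-! # Upper bound: greedy colouring by decreasing radius -/

set_option autoImplicit false

open scoped Classical

namespace Pool.Agent.Y384.CF.Upper

open Pool.Agent.Results.MP_f0f1b2_co.SqrtPly

/-- nine grid points around the centre of `v` -/
noncomputable def gp (v : Disc) (i j : ℤ) : ℝ × ℝ :=
  (v.1 + i * (√2 * v.2.2), v.2.1 + j * (√2 * v.2.2))

lemma round_grid (ρ x : ℝ) (hρ : 0 < ρ) (hx : x ^ 2 ≤ (2 * ρ) ^ 2) :
    ∃ i ∈ Finset.Icc (-1 : ℤ) 1, (x - i * (√2 * ρ)) ^ 2 ≤ ρ ^ 2 / 2 := by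
  have h2 : √(2 : ℝ) * √2 = 2 := Real.mul_self_sqrt (by norm_num)
  have h20 : 0 ≤ √(2 : ℝ) := Real.sqrt_nonneg 2
  have h2l : √(2 : ℝ) ≤ 3 / 2 := by
    rw [Real.sqrt_le_left (by norm_num)]
    norm_num
  have h2g : 7 / 5 ≤ √(2 : ℝ) := by
    apply Real.le_sqrt_of_sq_le
    norm_num
  obtain ⟨hx1, hx2⟩ := abs_le_of_sq_le_sq' hx (by positivity)
  set w : ℝ := √2 * ρ with hw
  have hw0 : 0 < w := by positivity
  have hww : w * w = 2 * ρ ^ 2 := by
    rw [hw]
    calc √2 * ρ * (√2 * ρ) = (√2 * √2) * ρ ^ 2 := by ring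
      _ = _ := by rw [h2]
  have hwρ : 2 * ρ ≤ 3 / 2 * w := by
    have : 7 / 5 * ρ ≤ w := mul_le_mul_of_nonneg_right h2g hρ.le
    linarith
  rcases le_total x (-(w / 2)) with h | h
  · refine ⟨-1, by simp, ?_⟩
    push_cast
    nlinarith
  · rcases le_total x (w / 2) with h' | h'
    · refine ⟨0, by simp, ?_⟩
      push_cast
      nlinarith
    · refine ⟨1, by simp, ?_⟩
      push_cast
      nlinarith

lemma pierce (v D : Disc) (hv : 0 < v.2.2) (hD : v.2.2 ≤ D.2.2) (p : ℝ × ℝ) (hpv : Mem p v)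
    (hpD : Mem p D) : ∃ i ∈ Finset.Icc (-1 : ℤ) 1, ∃ j ∈ Finset.Icc (-1 : ℤ) 1,
      Mem (gp v i j) D := by
  obtain ⟨a, b, ρ⟩ := v
  obtain ⟨A, B, R⟩ := D
  obtain ⟨x, y⟩ := p
  simp only [Mem] at hpv hpD hv hD ⊢
  have hR : 0 < R := hv.trans_le hD
  set s : ℝ := ρ / R with hs
  have hs0 : 0 ≤ s := by positivity
  have hs1 : s ≤ 1 := by
    rw [hs, div_le_one hR]
    exact hD
  have hsR : s * R = ρ := by
    rw [hs]
    field_simp
  -- the point q
  set X : ℝ := x + s * (A - x) with hX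
  set Y : ℝ := y + s * (B - y) with hY
  have hqp : (X - x) ^ 2 + (Y - y) ^ 2 ≤ ρ ^ 2 := by
    have : (X - x) ^ 2 + (Y - y) ^ 2 = s ^ 2 * ((x - A) ^ 2 + (y - B) ^ 2) := by
      rw [hX, hY]
      ring
    rw [this, ← hsR, mul_pow]
    exact mul_le_mul_of_nonneg_left hpD (by positivity)
  have hqD : (X - A) ^ 2 + (Y - B) ^ 2 ≤ (R - ρ) ^ 2 := by
    have e1 : (X - A) ^ 2 + (Y - B) ^ 2 = (1 - s) ^ 2 * ((x - A) ^ 2 + (y - B) ^ 2) := by
      rw [hX, hY]
      ring
    have e2 : (R - ρ) ^ 2 = (1 - s) ^ 2 * R ^ 2 := by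
      rw [← hsR]
      ring
    rw [e1, e2]
    exact mul_le_mul_of_nonneg_left hpD (by positivity)
  have tri : ∀ u1 u2 w1 w2 r1 r2 : ℝ, 0 ≤ r1 → 0 ≤ r2 → u1 ^ 2 + u2 ^ 2 ≤ r1 ^ 2 →
      w1 ^ 2 + w2 ^ 2 ≤ r2 ^ 2 → (u1 + w1) ^ 2 + (u2 + w2) ^ 2 ≤ (r1 + r2) ^ 2 := by
    intro u1 u2 w1 w2 r1 r2 h1 h2 h3 h4
    have h5 : (u1 * w1 + u2 * w2) ^ 2 ≤ (r1 * r2) ^ 2 := by
      calc (u1 * w1 + u2 * w2) ^ 2 ≤ (u1 ^ 2 + u2 ^ 2) * (w1 ^ 2 + w2 ^ 2) := by
            nlinarith [sq_nonneg (u1 * w2 - u2 * w1)]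
        _ ≤ r1 ^ 2 * r2 ^ 2 := mul_le_mul h3 h4 (by positivity) (by positivity)
        _ = _ := by ring
    have h6 := (abs_le_of_sq_le_sq' h5 (by positivity)).2
    nlinarith
  have hqv : (X - a) ^ 2 + (Y - b) ^ 2 ≤ (2 * ρ) ^ 2 := by
    have := tri (X - x) (Y - y) (x - a) (y - b) ρ ρ hv.le hv.le hqp hpv
    calc (X - a) ^ 2 + (Y - b) ^ 2 = (X - x + (x - a)) ^ 2 + (Y - y + (y - b)) ^ 2 := by ring
      _ ≤ (ρ + ρ) ^ 2 := this
      _ = _ := by ring
  obtain ⟨i, hi, hi2⟩ := round_grid ρ (X - a) hv (by nlinarith [sq_nonneg (Y - b)])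
  obtain ⟨j, hj, hj2⟩ := round_grid ρ (Y - b) hv (by nlinarith [sq_nonneg (X - a)])
  refine ⟨i, hi, j, hj, ?_⟩
  have h7 : (-(X - a - i * (√2 * ρ))) ^ 2 + (-(Y - b - j * (√2 * ρ))) ^ 2 ≤ ρ ^ 2 := by
    rw [neg_sq, neg_sq]
    linarith
  have h8 := tri _ _ (X - A) (Y - B) ρ (R - ρ) hv.le (by linarith) h7 hqD
  simp only [gp]
  calc (a + i * (√2 * ρ) - A) ^ 2 + (b + j * (√2 * ρ) - B) ^ 2
      = (-(X - a - i * (√2 * ρ)) + (X - A)) ^ 2 + (-(Y - b - j * (√2 * ρ)) + (Y - B)) ^ 2 := by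
        ring
    _ ≤ (ρ + (R - ρ)) ^ 2 := h8
    _ = R ^ 2 := by ring

lemma card_nb (F : Finset Disc) (t : ℕ) (hply : PlyLE F t) (v : Disc) (hv : 0 < v.2.2)
    (hmin : ∀ D ∈ F, v.2.2 ≤ D.2.2) :
    (F.filter (fun D => ∃ p, Mem p v ∧ Mem p D)).card ≤ 9 * t := by
  have hsub : F.filter (fun D => ∃ p, Mem p v ∧ Mem p D) ⊆
      ((Finset.Icc (-1 : ℤ) 1) ×ˢ (Finset.Icc (-1 : ℤ) 1)).biUnion
        (fun ij => F.filter (fun D => Mem (gp v ij.1 ij.2) D)) := by
    intro D hD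
    rw [Finset.mem_filter] at hD
    obtain ⟨hD, p, h1, h2⟩ := hD
    obtain ⟨i, hi, j, hj, h3⟩ := pierce v D hv (hmin D hD) p h1 h2
    rw [Finset.mem_biUnion]
    exact ⟨(i, j), Finset.mem_product.2 ⟨hi, hj⟩, Finset.mem_filter.2 ⟨hD, h3⟩⟩
  refine (Finset.card_le_card hsub).trans (Finset.card_biUnion_le.trans ?_)
  refine (Finset.sum_le_sum (fun ij _ => hply (gp v ij.1 ij.2))).trans ?_
  rw [Finset.sum_const, Finset.card_product]
  simp

/-- `9 t ≤ r m` colours suffice for every colour to occur at most `r` times at every point -/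
theorem upper (r m t : ℕ) (hm : 1 ≤ m) (h9 : 9 * t ≤ r * m) : ∀ (n : ℕ) (F : Finset Disc),
    F.card = n → (∀ D ∈ F, 0 < D.2.2) → PlyLE F t →
    ∃ χ : Disc → Fin m, ∀ (p : ℝ × ℝ) (a : Fin m),
      (F.filter (fun D => Mem p D ∧ χ D = a)).card ≤ r := by
  intro n
  induction n with
  | zero =>
    intro F hF _ _
    rw [Finset.card_eq_zero] at hF
    subst hF
    exact ⟨fun _ => ⟨0, hm⟩, fun p a => by simp⟩
  | succ n ih =>
    intro F hF hpos hply
    have hne : F.Nonempty := by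
      rw [← Finset.card_pos]
      omega
    obtain ⟨v, hv, hmin⟩ := Finset.exists_min_image F (fun D => D.2.2) hne
    have hcard : (F.erase v).card = n := by
      rw [Finset.card_erase_of_mem hv]
      omega
    obtain ⟨χ, hχ⟩ := ih (F.erase v) hcard (fun D hD => hpos D (Finset.mem_of_mem_erase hD))
      (fun p => (Finset.card_le_card (Finset.filter_subset_filter _ (Finset.erase_subset _ _))).trans
        (hply p))
    have hN := card_nb F t hply v (hpos v hv) hmin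
    set W := (F.filter (fun D => ∃ p, Mem p v ∧ Mem p D)).erase v with hW
    have hvW : v ∈ F.filter (fun D => ∃ p, Mem p v ∧ Mem p D) := by
      refine Finset.mem_filter.2 ⟨hv, (v.1, v.2.1), ?_, ?_⟩ <;>
      · unfold Mem
        simp only [sub_self]
        have := sq_nonneg v.2.2
        linarith
    have hWc : W.card < r * m := by
      have := Finset.card_erase_add_one hvW
      rw [← hW] at this
      omega
    obtain ⟨a, ha⟩ : ∃ a : Fin m, (W.filter (fun D => χ D = a)).card < r := by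
      by_contra hcon
      push Not at hcon
      have h1 : W.card = ∑ a : Fin m, (W.filter (fun D => χ D = a)).card :=
        Finset.card_eq_sum_card_fiberwise (f := χ) (t := Finset.univ)
          (fun x _ => Finset.mem_coe.2 (Finset.mem_univ _))
      have h2 : ∑ _a : Fin m, r ≤ ∑ a : Fin m, (W.filter (fun D => χ D = a)).card :=
        Finset.sum_le_sum fun a _ => hcon a
      rw [Finset.sum_const, Finset.card_univ, Fintype.card_fin, smul_eq_mul, ← h1] at h2
      rw [mul_comm] at h2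
      omega
    refine ⟨Function.update χ v a, fun p b => ?_⟩
    by_cases hb : b = a ∧ Mem p v
    · obtain ⟨rfl, hpv⟩ := hb
      have hsub : F.filter (fun D => Mem p D ∧ Function.update χ v b D = b) ⊆
          insert v (W.filter (fun D => χ D = b)) := by
        intro D hD
        rw [Finset.mem_filter] at hD
        rw [Finset.mem_insert]
        by_cases h : D = v
        · exact Or.inl h
        · right
          rw [Function.update_of_ne h] at hD
          refine Finset.mem_filter.2 ⟨?_, hD.2.2⟩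
          rw [hW, Finset.mem_erase]
          exact ⟨h, Finset.mem_filter.2 ⟨hD.1, p, hpv, hD.2.1⟩⟩
      have h1 := (Finset.card_le_card hsub).trans (Finset.card_insert_le _ _)
      omega
    · have hsub : F.filter (fun D => Mem p D ∧ Function.update χ v a D = b) ⊆
          (F.erase v).filter (fun D => Mem p D ∧ χ D = b) := by
        intro D hD
        rw [Finset.mem_filter] at hD
        by_cases h : D = v
        · exfalso
          rw [h, Function.update_self] at hD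
          exact hb ⟨hD.2.2.symm, hD.2.1⟩
        · rw [Function.update_of_ne h] at hD
          exact Finset.mem_filter.2 ⟨Finset.mem_erase.2 ⟨h, hD.1⟩, hD.2⟩
      exact (Finset.card_le_card hsub).trans (hχ p b)

end Pool.Agent.Y384.CF.Upper
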