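import Pool.Agent.Results.MP_f0f1b2_co.SqrtPly

/-! # The gadgets of SqrtPly, with multiplicities -/

set_option autoImplicit false

open scoped Classical
open Filter Topology

namespace Pool.Agent.Y384.CF.Gad

open Pool.Agent.Results.MP_f0f1b2_co.SqrtPly

/-- number of lines above and of discs around `p` of the colour `a` -/
noncomputable def cnt {κ : Type} (σ : ℝ) (G : Finset ℝ) (c : ℝ → κ) (F : Finset Disc)
    (χ : Disc → κ) (p : ℝ × ℝ) (a : κ) : ℕ :=
  (G.filter (fun g => p.2 < σ * g ∧ c g = a)).card + (F.filter (fun D => Mem p D ∧ χ D = a)).card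

/-- Some upper segment `{g ∈ G | g₀ ≤ g}`, `g₀ ∈ G`, has every colour zero or more than `r` times. -/
def Badr {κ : Type} (r : ℕ) (G : Finset ℝ) (c : ℝ → κ) : Prop :=
  ∃ g₀ ∈ G, ∀ a : κ, (G.filter (fun g => g₀ ≤ g ∧ c g = a)).card = 0 ∨
    r < (G.filter (fun g => g₀ ≤ g ∧ c g = a)).card

/-- The insertion game. -/
def Forcer {κ : Type} (r : ℕ) : List (Finset ℝ) → Finset ℝ → (ℝ → κ) → Prop
  | [], G, c => Badr r G c
  | A :: L, G, c => ∀ col : κ, ∃ γ ∈ A, γ ∉ G ∧ Forcer r L (insert γ G) (Function.update c γ col)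

/-- A gadget. -/
structure Gadr (κ : Type) (r : ℕ) (L : List (Finset ℝ)) (G : Finset ℝ) (σ : ℝ) (F : Finset Disc)
    (P : Finset (ℝ × ℝ)) : Prop where
  σpos : 0 < σ
  box : ∀ D ∈ F, 0 < D.2.2 ∧ |D.1| + D.2.2 ≤ 1
  pts : ∀ p ∈ P, |p.1| ≤ 1 ∧ ∀ g ∈ G, p.2 ≠ σ * g
  ply : PlyLE F L.length
  win : ∀ (χ : Disc → κ) (c : ℝ → κ), Forcer r L G c → ∃ p ∈ P,
    (∃ a, cnt σ G c F χ p a ≠ 0) ∧ ∀ a, cnt σ G c F χ p a = 0 ∨ r < cnt σ G c F χ p a

/-- the multiplicities at a point of a small gadget are those in the big one -/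
lemma cnt_transfer {κ : Type} (σ s γ : ℝ) (G : Finset ℝ) (hγ : γ ∉ G) (c : ℝ → κ)
    (F F' : Finset Disc) (χ : Disc → κ) (v : Disc) (hvF : v ∈ F) (φ : Disc → Disc)
    (hφ : Function.Injective φ) (hφF : ∀ D ∈ F', φ D ∈ F) (hvφ : ∀ D ∈ F', φ D ≠ v)
    (p p' : ℝ × ℝ) (hG : ∀ g ∈ G, (p.2 < σ * g ↔ p'.2 < s * g))
    (hv : Mem p v ↔ p'.2 < s * γ) (hm : ∀ D ∈ F', (Mem p (φ D) ↔ Mem p' D))
    (hF : ∀ D ∈ F, Mem p D → D = v ∨ ∃ D' ∈ F', D = φ D') (a : κ) :
    cnt σ G c F χ p a =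
      cnt s (insert γ G) (Function.update c γ (χ v)) F' (fun D => χ (φ D)) p' a := by
  have hcγ : Function.update c γ (χ v) γ = χ v := Function.update_self _ _ _
  have hcg : ∀ g ∈ G, Function.update c γ (χ v) g = c g := fun g hg =>
    Function.update_of_ne (by rintro rfl; exact hγ hg) _ _
  have h1 : ((insert γ G).filter
      (fun g => p'.2 < s * g ∧ Function.update c γ (χ v) g = a)).card =
      (G.filter (fun g => p.2 < σ * g ∧ c g = a)).card +
        (if Mem p v ∧ χ v = a then 1 else 0) := by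
    have e1 : G.filter (fun g => p'.2 < s * g ∧ Function.update c γ (χ v) g = a) =
        G.filter (fun g => p.2 < σ * g ∧ c g = a) := by
      apply Finset.filter_congr
      intro g hg
      rw [hG g hg, hcg g hg]
    rw [Finset.filter_insert, hcγ]
    by_cases h : Mem p v ∧ χ v = a
    · rw [if_pos (⟨hv.1 h.1, h.2⟩ : p'.2 < s * γ ∧ χ v = a), if_pos h,
        Finset.card_insert_of_notMem (fun h' => hγ (Finset.mem_filter.1 h').1), e1]
    · have h6 : ¬ (p'.2 < s * γ ∧ χ v = a) := fun h' => h ⟨hv.2 h'.1, h'.2⟩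
      rw [if_neg h, if_neg h6, e1, add_zero]
  have h2 : (F.filter (fun D => Mem p D ∧ χ D = a)).card =
      (F'.filter (fun D => Mem p' D ∧ χ (φ D) = a)).card +
        (if Mem p v ∧ χ v = a then 1 else 0) := by
    have e2 : (F.filter (fun D => Mem p D ∧ χ D = a)).erase v =
        (F'.filter (fun D => Mem p' D ∧ χ (φ D) = a)).image φ := by
      ext D
      rw [Finset.mem_erase, Finset.mem_filter, Finset.mem_image]
      constructor
      · rintro ⟨hne, hD, hmD, hc⟩
        rcases hF D hD hmD with h | ⟨D', hD', rfl⟩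
        · exact absurd h hne
        · exact ⟨D', Finset.mem_filter.2 ⟨hD', (hm D' hD').1 hmD, hc⟩, rfl⟩
      · rintro ⟨D', hD', rfl⟩
        rw [Finset.mem_filter] at hD'
        exact ⟨hvφ D' hD'.1, hφF D' hD'.1, (hm D' hD'.1).2 hD'.2.1, hD'.2.2⟩
    have e3 := Finset.card_image_of_injective
      (F'.filter (fun D => Mem p' D ∧ χ (φ D) = a)) hφ
    by_cases h : Mem p v ∧ χ v = a
    · have h4 : v ∈ F.filter (fun D => Mem p D ∧ χ D = a) := Finset.mem_filter.2 ⟨hvF, h⟩
      have h5 := Finset.card_erase_add_one h4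
      rw [if_pos h, ← h5, e2, e3]
    · have h4 : v ∉ F.filter (fun D => Mem p D ∧ χ D = a) := fun h' => h (Finset.mem_filter.1 h').2
      rw [if_neg h, add_zero, ← e3, ← e2, Finset.erase_eq_of_notMem h4]
  unfold cnt
  rw [h1, h2]
  ring

lemma gadr_nil (κ : Type) (r : ℕ) (G : Finset ℝ) : ∃ (σ : ℝ) (F : Finset Disc) (P : Finset (ℝ × ℝ)),
    Gadr κ r [] G σ F P := by
  obtain ⟨ε, hε, hG⟩ := gad_nil_eps G
  refine ⟨1, ∅, G.image (fun g => ((0:ℝ), g - ε)), ?_, ?_, ?_, ?_, ?_⟩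
  · exact one_pos
  · intro D hD
    exact absurd hD (Finset.notMem_empty D)
  · intro p hp
    rw [Finset.mem_image] at hp
    obtain ⟨g, hg, rfl⟩ := hp
    refine ⟨by simp, ?_⟩
    intro g' hg' h
    simp only [one_mul] at h
    have := hG g hg g' hg' (by linarith)
    linarith
  · intro p
    simp
  · intro χ c hF
    have hB : Badr r G c := hF
    obtain ⟨g0, hg0, hb⟩ := hB
    have hset : ∀ a : κ, G.filter (fun g => g0 - ε < 1 * g ∧ c g = a) =
        G.filter (fun g => g0 ≤ g ∧ c g = a) := by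
      intro a
      apply Finset.filter_congr
      intro g hg
      rw [one_mul]
      constructor
      · rintro ⟨h1, h2⟩
        refine ⟨?_, h2⟩
        by_contra hcon
        push Not at hcon
        have := hG g0 hg0 g hg hcon
        linarith
      · rintro ⟨h1, h2⟩
        exact ⟨by linarith, h2⟩
    have hcnt : ∀ a : κ, cnt 1 G c ∅ χ ((0 : ℝ), g0 - ε) a =
        (G.filter (fun g => g0 ≤ g ∧ c g = a)).card := by
      intro a
      rw [cnt, Finset.filter_empty, Finset.card_empty, add_zero]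
      exact congrArg Finset.card (hset a)
    refine ⟨(0, g0 - ε), Finset.mem_image.2 ⟨g0, hg0, rfl⟩, ⟨c g0, ?_⟩, fun a => ?_⟩
    · rw [hcnt]
      apply Finset.card_ne_zero_of_mem (a := g0)
      exact Finset.mem_filter.2 ⟨hg0, le_rfl, rfl⟩
    · rw [hcnt]
      exact hb a

lemma gadr_cons (κ : Type) (r : ℕ) (B : Finset ℝ) (L : List (Finset ℝ)) (G : Finset ℝ)
    (ih : ∀ G' : Finset ℝ, ∃ (σ : ℝ) (F : Finset Disc) (P : Finset (ℝ × ℝ)), Gadr κ r L G' σ F P) :
    ∃ (σ : ℝ) (F : Finset Disc) (P : Finset (ℝ × ℝ)), Gadr κ r (B :: L) G σ F P := by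
  choose σf Ff Pf hf using fun γ : ℝ => ih (insert γ G)
  obtain ⟨S, hS⟩ : ∃ S : Finset ℝ, S = B.filter (fun γ => γ ∉ G) := ⟨_, rfl⟩
  obtain ⟨M, hM⟩ : ∃ M : ℝ, ∀ γ ∈ S, γ < M := by
    refine ⟨∑ γ ∈ S, |γ| + 1, fun γ hγ => ?_⟩
    have h1 : |γ| ≤ ∑ γ ∈ S, |γ| :=
      Finset.single_le_sum (f := fun γ : ℝ => |γ|) (fun i _ => abs_nonneg i) hγ
    have h2 := le_abs_self γ
    linarith
  obtain ⟨τ, hτ, h1, h2, h3, h4⟩ := choose_tau M S hM σf (fun γ _ => (hf γ).σpos) Pf
    (fun γ _ p hp => ((hf γ).pts p hp).2 γ (Finset.mem_insert_self γ G))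
  have hlam : ∀ γ, 0 < τ ^ 2 / σf γ := fun γ => div_pos (by positivity) (hf γ).σpos
  have hx : ∀ γ, 0 ≤ X M γ τ := fun γ => mul_nonneg hτ.le (Real.sqrt_nonneg _)
  refine ⟨τ ^ 2, insert (newDisc M τ)
    (S.biUnion fun γ => (Ff γ).image (sc (X M γ τ) (τ ^ 2 / σf γ))),
    S.biUnion fun γ => (Pf γ).image (pt (X M γ τ) (τ ^ 2 / σf γ)), ?_⟩
  constructor
  · positivity
  · intro D hD
    rw [Finset.mem_insert] at hD
    rcases hD with rfl | hD
    · constructor
      · show (0:ℝ) < 1 / 4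
        norm_num
      · show |(0:ℝ)| + 1 / 4 ≤ 1
        rw [abs_zero]; norm_num
    · rw [Finset.mem_biUnion] at hD
      obtain ⟨γ, hγ, hD⟩ := hD
      rw [Finset.mem_image] at hD
      obtain ⟨D', hD', rfl⟩ := hD
      have hb := (hf γ).box D' hD'
      have hl := hlam γ
      constructor
      · exact mul_pos hl hb.1
      · show |X M γ τ + τ ^ 2 / σf γ * D'.1| + τ ^ 2 / σf γ * D'.2.2 ≤ 1
        have h7 := abs_add_le (X M γ τ) (τ ^ 2 / σf γ * D'.1)
        rw [abs_of_nonneg (hx γ), abs_mul, abs_of_pos hl] at h7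
        have h5 := mul_le_mul_of_nonneg_left hb.2 hl.le
        rw [mul_add] at h5
        have h6 := h1 γ hγ
        linarith
  · intro p hp
    rw [Finset.mem_biUnion] at hp
    obtain ⟨γ, hγ, hp⟩ := hp
    rw [Finset.mem_image] at hp
    obtain ⟨p', hp', rfl⟩ := hp
    have hb := (hf γ).pts p' hp'
    have hl := hlam γ
    constructor
    · show |X M γ τ + τ ^ 2 / σf γ * p'.1| ≤ 1
      have h7 := abs_add_le (X M γ τ) (τ ^ 2 / σf γ * p'.1)
      rw [abs_of_nonneg (hx γ), abs_mul, abs_of_pos hl] at h7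
      have h5 := mul_le_mul_of_nonneg_left hb.1 hl.le
      have h6 := h1 γ hγ
      linarith
    · intro g hg
      show τ ^ 2 / σf γ * p'.2 ≠ τ ^ 2 * g
      intro h
      apply hb.2 g (Finset.mem_insert_of_mem hg)
      have hs := (hf γ).σpos
      have hs' : σf γ ≠ 0 := hs.ne'
      have ht : τ ^ 2 ≠ 0 := by positivity
      have h8 : τ ^ 2 * p'.2 = τ ^ 2 * (σf γ * g) := by
        have h9 : τ ^ 2 / σf γ * p'.2 * σf γ = τ ^ 2 * g * σf γ := by rw [h]
        have h10 : τ ^ 2 / σf γ * p'.2 * σf γ = τ ^ 2 * p'.2 := by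
          field_simp
        rw [h10] at h9
        rw [h9]; ring
      exact mul_left_cancel₀ ht h8
  · exact ply_step _ S Ff (fun γ => X M γ τ) (fun γ => τ ^ 2 / σf γ) L.length
      (fun γ _ => hlam γ) (fun γ _ => (hf γ).box) h4 (fun γ _ => (hf γ).ply)
  · intro χ c hforce
    obtain ⟨γ, hγB, hγG, hF⟩ := hforce (χ (newDisc M τ))
    have hγS : γ ∈ S := by rw [hS]; exact Finset.mem_filter.2 ⟨hγB, hγG⟩
    obtain ⟨p', hp', hv⟩ := (hf γ).win (fun D => χ (sc (X M γ τ) (τ ^ 2 / σf γ) D))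
      (Function.update c γ (χ (newDisc M τ))) hF
    refine ⟨pt (X M γ τ) (τ ^ 2 / σf γ) p', ?_, ?_⟩
    · exact Finset.mem_biUnion.2 ⟨γ, hγS, Finset.mem_image_of_mem _ hp'⟩
    · have key : ∀ a, cnt (τ ^ 2) G c (insert (newDisc M τ)
          (S.biUnion fun γ => (Ff γ).image (sc (X M γ τ) (τ ^ 2 / σf γ)))) χ
          (pt (X M γ τ) (τ ^ 2 / σf γ) p') a =
          cnt (σf γ) (insert γ G) (Function.update c γ (χ (newDisc M τ))) (Ff γ)
            (fun D => χ (sc (X M γ τ) (τ ^ 2 / σf γ) D)) p' a := by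
        refine cnt_transfer (τ ^ 2) (σf γ) γ G hγG c _ (Ff γ) χ (newDisc M τ)
          (Finset.mem_insert_self _ _) (sc (X M γ τ) (τ ^ 2 / σf γ)) (sc_inj _ _ (hlam γ)) ?_ ?_
          (pt (X M γ τ) (τ ^ 2 / σf γ) p') p' ?_ (h3 γ hγS p' hp')
          (fun D _ => mem_sc _ _ (hlam γ) _ _) ?_
        · intro D hD
          exact Finset.mem_insert_of_mem
            (Finset.mem_biUnion.2 ⟨γ, hγS, Finset.mem_image_of_mem _ hD⟩)
        · intro D hD h
          have hb := (hf γ).box D hD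
          have hr : τ ^ 2 / σf γ * D.2.2 = 1 / 4 := congrArg (fun D : Disc => D.2.2) h
          have h5 : D.2.2 ≤ 1 := by
            have := abs_nonneg D.1
            linarith [hb.2]
          have h6 := h2 γ hγS
          have h7 : τ ^ 2 / σf γ * D.2.2 ≤ τ ^ 2 / σf γ * 1 :=
            mul_le_mul_of_nonneg_left h5 (hlam γ).le
          linarith
        · intro g _
          show τ ^ 2 / σf γ * p'.2 < τ ^ 2 * g ↔ p'.2 < σf γ * g
          have hs := (hf γ).σpos
          have ht : 0 < τ ^ 2 := by positivity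
          have e1 : τ ^ 2 * g = τ ^ 2 / σf γ * (σf γ * g) := by
            field_simp
          rw [e1]
          exact mul_lt_mul_iff_right₀ (hlam γ)
        · intro D hD hm
          rw [Finset.mem_insert] at hD
          rcases hD with rfl | hD
          · exact Or.inl rfl
          · right
            rw [Finset.mem_biUnion] at hD
            obtain ⟨γ', hγ', hD⟩ := hD
            rw [Finset.mem_image] at hD
            obtain ⟨D', hD', rfl⟩ := hD
            by_cases hgg : γ = γ'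
            · subst hgg
              exact ⟨D', hD', rfl⟩
            · exfalso
              have hb := (hf γ').box D' hD'
              have ha := xrange (X M γ' τ) (τ ^ 2 / σf γ') (hlam γ') D' hb.1 hb.2 _ hm
              have hsep := h4 γ hγS γ' hγ' hgg
              have hp1 := ((hf γ).pts p' hp').1
              have hq : (pt (X M γ τ) (τ ^ 2 / σf γ) p').1 = X M γ τ + τ ^ 2 / σf γ * p'.1 := rfl
              rw [hq] at ha
              have h7 : |τ ^ 2 / σf γ * p'.1| ≤ τ ^ 2 / σf γ := by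
                rw [abs_mul, abs_of_pos (hlam γ)]
                have := mul_le_mul_of_nonneg_left hp1 (hlam γ).le
                linarith
              have h8 : X M γ τ - X M γ' τ = (X M γ τ + τ ^ 2 / σf γ * p'.1 - X M γ' τ)
                - τ ^ 2 / σf γ * p'.1 := by ring
              have h9 := abs_sub (X M γ τ + τ ^ 2 / σf γ * p'.1 - X M γ' τ) (τ ^ 2 / σf γ * p'.1)
              rw [← h8] at h9
              linarith
      obtain ⟨⟨a, ha⟩, hb⟩ := hv
      refine ⟨⟨a, ?_⟩, fun a => ?_⟩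
      · rw [key a]
        exact ha
      · rw [key a]
        exact hb a

lemma gadr_all (κ : Type) (r : ℕ) (L : List (Finset ℝ)) : ∀ G : Finset ℝ,
    ∃ (σ : ℝ) (F : Finset Disc) (P : Finset (ℝ × ℝ)), Gadr κ r L G σ F P := by
  induction L with
  | nil => exact gadr_nil κ r
  | cons B L ih => exact fun G => gadr_cons κ r B L G ih

end Pool.Agent.Y384.CF.Gad
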