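import Pool.Agent.Y384.CF.Gad

/-! # The level strategy, with multiplicities -/

set_option autoImplicit false

open scoped Classical
open Filter Topology

namespace Pool.Agent.Y384.CF.Strat

open Pool.Agent.Results.MP_f0f1b2_co.SqrtPly Pool.Agent.Y384.CF.Gad

/-- the sum of numbers without large gaps -/
lemma sum_gap {κ : Type} (r : ℕ) (m : κ → ℕ) : ∀ (n : ℕ) (S : Finset κ), S.card = n →
    (∀ l, 1 ≤ l → (∃ a ∈ S, l ≤ m a) → ∃ a ∈ S, l ≤ m a ∧ m a < l + r) →
    (∀ a ∈ S, m a ≤ r * n) ∧ 2 * ∑ a ∈ S, m a ≤ r * (n * (n + 1)) := by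
  intro n
  induction n with
  | zero =>
    intro S hS _
    rw [Finset.card_eq_zero] at hS
    subst hS
    simp
  | succ n ih =>
    intro S hS hP
    have hne : S.Nonempty := by
      rw [← Finset.card_pos]
      omega
    obtain ⟨a0, ha0, hmax⟩ := Finset.exists_max_image S m hne
    have hcard : (S.erase a0).card = n := by
      rw [Finset.card_erase_of_mem ha0]
      omega
    have hP' : ∀ l, 1 ≤ l → (∃ a ∈ S.erase a0, l ≤ m a) →
        ∃ a ∈ S.erase a0, l ≤ m a ∧ m a < l + r := by
      rintro l hl ⟨b, hb, hlb⟩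
      obtain ⟨a, ha, h1, h2⟩ := hP l hl ⟨b, Finset.mem_of_mem_erase hb, hlb⟩
      by_cases h : a = a0
      · refine ⟨b, hb, hlb, ?_⟩
        have := hmax b (Finset.mem_of_mem_erase hb)
        rw [← h] at this
        omega
      · exact ⟨a, Finset.mem_erase.2 ⟨h, ha⟩, h1, h2⟩
    obtain ⟨h1, h2⟩ := ih _ hcard hP'
    have hM : m a0 ≤ r * (n + 1) := by
      by_contra hcon
      push Not at hcon
      obtain ⟨a, ha, h3, h4⟩ := hP (r * n + 1) (by omega) ⟨a0, ha0, by
        have : r * (n + 1) = r * n + r := by ring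
        omega⟩
      by_cases h : a = a0
      · rw [h] at h4
        have : r * (n + 1) = r * n + r := by ring
        omega
      · have := h1 a (Finset.mem_erase.2 ⟨h, ha⟩)
        omega
    refine ⟨fun a ha => (hmax a ha).trans hM, ?_⟩
    rw [← Finset.add_sum_erase S m ha0, mul_add]
    have h5 : r * ((n + 1) * (n + 1 + 1)) = 2 * (r * (n + 1)) + r * (n * (n + 1)) := by ring
    omega

lemma level_count {κ : Type} (N : ℝ) (G : Finset ℝ) (c : ℝ → κ) (h : Inv N G c) (a : κ) (l : ℕ)
    (hl : 1 ≤ l) : ((G.filter (fun g => c g = a)).filter (fun g => l ≤ lv N g)).card =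
      (G.filter (fun g => c g = a)).card + 1 - l := by
  set E := G.filter (fun g => c g = a) with hE
  have hmem : ∀ g, g ∈ E ↔ g ∈ G ∧ c g = a := fun g => by rw [hE, Finset.mem_filter]
  have hinj : Set.InjOn (lv N) (E : Set ℝ) := by
    intro g hg g' hg' he
    rw [Finset.mem_coe, hmem] at hg hg'
    exact h.inj g hg.1 g' hg'.1 (hg.2.trans hg'.2.symm) he
  have hcard : (E.image (lv N)).card = E.card := Finset.card_image_of_injOn hinj
  have hle : ∀ g ∈ E, lv N g ≤ E.card := by
    intro g hg
    rw [hmem] at hg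
    have h1 : Finset.Icc 1 (lv N g) ⊆ E.image (lv N) := by
      intro j hj
      rw [Finset.mem_Icc] at hj
      obtain ⟨g', hg', h2, h3⟩ := h.down g hg.1 j hj.1 hj.2
      rw [Finset.mem_image]
      exact ⟨g', (hmem g').2 ⟨hg', h2.trans hg.2⟩, h3⟩
    have h2 := Finset.card_le_card h1
    rw [Nat.card_Icc, hcard] at h2
    omega
  have h2 : E.image (lv N) = Finset.Icc 1 E.card := by
    have h1 : E.image (lv N) ⊆ Finset.Icc 1 E.card := by
      intro j hj
      rw [Finset.mem_image] at hj
      obtain ⟨g, hg, rfl⟩ := hj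
      rw [Finset.mem_Icc]
      exact ⟨h.pos g ((hmem g).1 hg).1, hle g hg⟩
    apply Finset.eq_of_subset_of_card_le h1
    rw [hcard, Nat.card_Icc]
    omega
  have h3 : ((E.filter (fun g => l ≤ lv N g)).image (lv N)) = Finset.Icc l E.card := by
    ext j
    rw [Finset.mem_image, Finset.mem_Icc]
    constructor
    · rintro ⟨g, hg, rfl⟩
      rw [Finset.mem_filter] at hg
      exact ⟨hg.2, hle g hg.1⟩
    · rintro ⟨hj1, hj2⟩
      have h4 : j ∈ E.image (lv N) := by
        rw [h2, Finset.mem_Icc]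
        omega
      obtain ⟨g, hg, rfl⟩ := Finset.mem_image.1 h4
      exact ⟨g, Finset.mem_filter.2 ⟨hg, hj1⟩, rfl⟩
  have h4 : ((E.filter (fun g => l ≤ lv N g)).image (lv N)).card =
      (E.filter (fun g => l ≤ lv N g)).card :=
    Finset.card_image_of_injOn (fun x hx y hy hxy => hinj
      (Finset.mem_coe.2 (Finset.mem_filter.1 hx).1) (Finset.mem_coe.2 (Finset.mem_filter.1 hy).1) hxy)
  rw [← h4, h3, Nat.card_Icc]

lemma badr_of_inv {κ : Type} [Fintype κ] (r : ℕ) (N : ℝ) (hN : 0 < N) (G : Finset ℝ) (c : ℝ → κ)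
    (h : Inv N G c) (hk : r * (Fintype.card κ * (Fintype.card κ + 1)) < 2 * G.card) :
    Badr r G c := by
  by_contra hbad
  have hP : ∀ l, 1 ≤ l → (∃ a ∈ (Finset.univ : Finset κ),
      l ≤ (G.filter (fun g => c g = a)).card) →
      ∃ a ∈ (Finset.univ : Finset κ), l ≤ (G.filter (fun g => c g = a)).card ∧
        (G.filter (fun g => c g = a)).card < l + r := by
    rintro l hl ⟨b, -, hb⟩
    have hne : (G.filter (fun g => l ≤ lv N g)).Nonempty := by
      have h1 := level_count N G c h b l hl
      have h2 : ((G.filter (fun g => c g = b)).filter (fun g => l ≤ lv N g)).Nonempty := by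
        rw [← Finset.card_pos]
        omega
      obtain ⟨g, hg⟩ := h2
      rw [Finset.mem_filter, Finset.mem_filter] at hg
      exact ⟨g, Finset.mem_filter.2 ⟨hg.1.1, hg.2⟩⟩
    have hmin := Finset.min'_mem _ hne
    have hmin' := Finset.mem_filter.mp hmin
    have hset : ∀ a, G.filter (fun g => (G.filter (fun g => l ≤ lv N g)).min' hne ≤ g ∧ c g = a) =
        (G.filter (fun g => c g = a)).filter (fun g => l ≤ lv N g) := by
      intro a
      ext g
      rw [Finset.mem_filter, Finset.mem_filter, Finset.mem_filter]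
      constructor
      · rintro ⟨h1, h2, h3⟩
        exact ⟨⟨h1, h3⟩, hmin'.2.trans (lv_mono N hN _ _ h2)⟩
      · rintro ⟨⟨h1, h3⟩, h2⟩
        exact ⟨h1, Finset.min'_le _ _ (Finset.mem_filter.2 ⟨h1, h2⟩), h3⟩
    have hex : ∃ a, ¬ ((G.filter (fun g => (G.filter (fun g => l ≤ lv N g)).min' hne ≤ g ∧
        c g = a)).card = 0 ∨ r < (G.filter (fun g =>
          (G.filter (fun g => l ≤ lv N g)).min' hne ≤ g ∧ c g = a)).card) := by
      by_contra hcon
      push Not at hcon
      apply hbad
      exact ⟨_, hmin'.1, fun a => hcon a⟩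
    obtain ⟨a, ha⟩ := hex
    rw [hset a, level_count N G c h a l hl] at ha
    push Not at ha
    exact ⟨a, Finset.mem_univ a, by omega, by omega⟩
  have h1 := (sum_gap r (fun a => (G.filter (fun g => c g = a)).card) (Fintype.card κ) Finset.univ
    Finset.card_univ hP).2
  have h2 : ∑ a : κ, (G.filter (fun g => c g = a)).card = G.card :=
    (Finset.card_eq_sum_card_fiberwise (f := c) (t := Finset.univ)
      (fun x _ => Finset.mem_coe.2 (Finset.mem_univ _))).symm
  rw [h2] at h1
  omega

lemma forcer_main (r k T : ℕ) (N : ℝ) (hT : r * (k * (k + 1)) < 2 * T) (hN : N = (T : ℝ) + 1) :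
    ∀ (m s : ℕ) (G : Finset ℝ) (c : ℝ → Fin k), s + m = T → Inv N G c → G.card = s →
      (∀ g ∈ G, ∃ l s' : ℕ, s' < s ∧ g = (l : ℝ) * N + s') →
      Forcer r (Lst N T s m) G c := by
  have hNpos : 0 < N := by rw [hN]; positivity
  intro m
  induction m with
  | zero =>
    intro s G c hs hinv hcard hform
    show Badr r G c
    apply badr_of_inv r N hNpos G c hinv
    have : G.card = T := by omega
    rw [this, Fintype.card_fin]
    exact hT
  | succ m ih =>
    intro s G c hs hinv hcard hform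
    show Forcer r (A N T s :: Lst N T (s + 1) m) G c
    intro col
    set l : ℕ := (G.filter (fun g => c g = col)).card + 1 with hl
    have hle : (G.filter (fun g => c g = col)).card ≤ G.card := Finset.card_filter_le _ _
    have hlT : l < T + 2 := by omega
    have hsN : (s:ℝ) < N := by
      rw [hN]
      have : (s:ℝ) ≤ T := by exact_mod_cast (by omega : s ≤ T)
      linarith
    have hlv : lv N ((l:ℝ) * N + s) = l := lv_eq N hNpos l s (by positivity) hsN
    have hnot : ((l:ℝ) * N + s) ∉ G := by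
      intro hmem
      obtain ⟨l', s', hs', he⟩ := hform _ hmem
      have h1 : ((l * (T + 1) + s : ℕ) : ℝ) = ((l' * (T + 1) + s' : ℕ) : ℝ) := by
        push_cast
        rw [← hN]; exact he
      have h2 : l * (T + 1) + s = l' * (T + 1) + s' := by exact_mod_cast h1
      have h3 : (l * (T + 1) + s) % (T + 1) = s := by
        rw [Nat.mul_add_mod_self_right]
        exact Nat.mod_eq_of_lt (by omega)
      have h4 : (l' * (T + 1) + s') % (T + 1) = s' := by
        rw [Nat.mul_add_mod_self_right]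
        exact Nat.mod_eq_of_lt (by omega)
      rw [h2, h4] at h3
      omega
    refine ⟨(l:ℝ) * N + s, ?_, hnot, ?_⟩
    · unfold A
      exact Finset.mem_image.2 ⟨l, Finset.mem_range.2 hlT, rfl⟩
    · apply ih (s + 1)
      · omega
      · exact inv_step N G c hinv col _ hnot (by rw [hlv, hl]; congr!)
      · rw [Finset.card_insert_of_notMem hnot, hcard]
      · intro g hg
        rcases Finset.mem_insert.1 hg with h | h
        · exact ⟨l, s, by omega, h⟩
        · obtain ⟨l', s', hs', he⟩ := hform g h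
          exact ⟨l', s', by omega, he⟩

lemma forcer_all (r k T : ℕ) (hT : r * (k * (k + 1)) < 2 * T) :
    ∃ L : List (Finset ℝ), L.length = T ∧ ∀ c : ℝ → Fin k, Forcer r L ∅ c := by
  refine ⟨Lst ((T : ℝ) + 1) T 0 T, force_all_length _ _ _ _, fun c => ?_⟩
  refine forcer_main r k T _ hT rfl T 0 ∅ c (by omega) ?_ Finset.card_empty ?_
  · exact ⟨fun g hg => absurd hg (Finset.notMem_empty g),
      fun g hg => absurd hg (Finset.notMem_empty g),
      fun g hg => absurd hg (Finset.notMem_empty g)⟩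
  · intro g hg
    exact absurd hg (Finset.notMem_empty g)

/-- For `r k (k + 1) < 2 T` there is a family of discs of ply at most `T` such that for every
colouring with `k` colours every colour occurs zero or more than `r` times at some covered
point. -/
theorem lower (r k T : ℕ) (hk : 1 ≤ k) (hT : r * (k * (k + 1)) < 2 * T) :
    ∃ F : Finset Disc, (∀ D ∈ F, 0 < D.2.2) ∧ PlyLE F T ∧
    ∀ χ : Disc → Fin k, ∃ p : ℝ × ℝ, (∃ D ∈ F, Mem p D) ∧
      ∀ a : Fin k, (F.filter (fun D => Mem p D ∧ χ D = a)).card = 0 ∨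
        r < (F.filter (fun D => Mem p D ∧ χ D = a)).card := by
  obtain ⟨L, hL, hf⟩ := forcer_all r k T hT
  obtain ⟨σ, F, P, hg⟩ := gadr_all (Fin k) r L ∅
  refine ⟨F, fun D hD => (hg.box D hD).1, hL ▸ hg.ply, fun χ => ?_⟩
  obtain ⟨p, -, ⟨a, h1⟩, h3⟩ := hg.win χ (fun _ => ⟨0, hk⟩) (hf _)
  have hc : ∀ a, cnt σ ∅ (fun _ => (⟨0, hk⟩ : Fin k)) F χ p a =
      (F.filter (fun D => Mem p D ∧ χ D = a)).card := by
    intro a
    rw [cnt, Finset.filter_empty, Finset.card_empty, zero_add]
    congr!
  refine ⟨p, ?_, fun a => ?_⟩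
  · rw [hc] at h1
    obtain ⟨D, hD⟩ := Finset.card_pos.1 (Nat.pos_of_ne_zero h1)
    rw [Finset.mem_filter] at hD
    exact ⟨D, hD.1, hD.2.1⟩
  · have := h3 a
    rw [hc] at this
    exact this

end Pool.Agent.Y384.CF.Strat
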